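import Pool.Agent.Q322.LX.Ex

set_option autoImplicit false

/-!
# MP_f85f12_al: the Jordan-Hoelder property fails in a slice of a lax stability condition
-/

open CategoryTheory Limits Pretriangulated Polynomial

namespace Pool.Agent.Results.MP_f85f12_al.JordanHolderFails

open Pool.Agent.Q322.LX

theorem not_principal (x : I0 (2 : ℤ[X]) X) : ∃ y : I0 (2 : ℤ[X]) X, ∀ c : ℤ[X], c • x ≠ y := by
  by_contra hcon
  push Not at hcon
  have h2 := x.2
  have m2 : (2 : ℤ[X]) ∈ I0 (2 : ℤ[X]) X := (mem_I0 _ _ _).2 ⟨1, 0, by ring⟩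
  have mX : (X : ℤ[X]) ∈ I0 (2 : ℤ[X]) X := (mem_I0 _ _ _).2 ⟨0, 1, by ring⟩
  obtain ⟨c, hc⟩ := hcon ⟨2, m2⟩
  obtain ⟨d, hd⟩ := hcon ⟨X, mX⟩
  have hc' : c * (x : ℤ[X]) = 2 := congrArg Subtype.val hc
  have hd' : d * (x : ℤ[X]) = X := congrArg Subtype.val hd
  obtain ⟨p, q, hpq⟩ := (mem_I0 _ _ _).1 h2
  generalize (x : ℤ[X]) = t at hc' hd' hpq
  clear hc hd hcon h2
  have ht0 : t ≠ 0 := by
    rintro rfl
    rw [mul_zero] at hd'
    exact X_ne_zero hd'.symm
  have hc0 : c ≠ 0 := by
    rintro rfl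
    rw [zero_mul] at hc'
    exact two_ne_zero hc'.symm
  have hdeg : t.natDegree = 0 := by
    have h1 := natDegree_mul hc0 ht0
    rw [hc'] at h1
    have h2 : (2 : ℤ[X]).natDegree = 0 := natDegree_ofNat 2
    omega
  obtain ⟨m, rfl⟩ := natDegree_eq_zero.1 hdeg
  have h1 : d.coeff 1 * m = 1 := by
    have := congrArg (fun p : ℤ[X] => p.coeff 1) hd'
    simpa using this
  have h3 := congrArg (fun p : ℤ[X] => p.coeff 0) hpq
  simp only [coeff_add, mul_coeff_zero, coeff_X_zero, mul_zero, add_zero, coeff_C_zero] at h3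
  have h4 : (2 : ℤ[X]).coeff 0 = 2 := by simp
  rw [h4] at h3
  have h5 : IsUnit m := IsUnit.of_mul_eq_one (d.coeff 1) (by rw [mul_comm]; exact h1)
  rcases Int.isUnit_iff.1 h5 with h6 | h6 <;> omega

/-- There are a triangulated category, a lax stability condition on it and a phase such that all
nonzero objects of the slice are massive and the slice does not have the Jordan-Hoelder
property. -/
theorem result :
    ∃ (C : Type 1) (_ : Category.{1} C) (_ : Preadditive C) (_ : HasZeroObject C)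
      (_ : HasShift C ℤ) (_ : ∀ n : ℤ, (shiftFunctor C n).Additive) (_ : Pretriangulated C)
      (_ : IsTriangulated C) (n : ℕ) (σ : LaxStability C n) (φ : ℝ),
      (∀ X : C, σ.P φ X → ¬ IsZero X → σ.Z (σ.v X) ≠ 0) ∧
        ¬ JordanHolder (σ.P φ).FullSubcategory := by
  letI := HasDerivedCategory.standard (ModuleCat.{0} ℤ[X])
  exact ⟨CC ℤ[X], inferInstance, inferInstance, inferInstance, inferInstance, inferInstance,
    inferInstance, inferInstance, 1, lax ℤ[X], 1 / 2, fun X h h0 => massive X h h0,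
    not_JH 2 X X_ne_zero not_principal⟩

end Pool.Agent.Results.MP_f85f12_al.JordanHolderFails
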